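import Pool.Agent.MP_bea40e_an.Mg.Mg_InfI

open Filter Topology Set MeasureTheory Pool.Agent.MP_bea40e_an
open scoped ContDiff

namespace Pool.Agent.Results.MP_bea40e_an.InfiniteVolume

/-- There is a bounded domain with `C^∞` boundary in some `ℂⁿ` whose envelope of holomorphy has
infinite volume. -/
theorem result : ∃ (n : ℕ) (D : Set (Fin n → ℂ)), IsOpen D ∧ IsConnected D ∧
    Bornology.IsBounded D ∧
    (∃ ρ : (Fin n → ℂ) → ℝ, ContDiff ℝ ∞ ρ ∧ ∀ q ∈ frontier D, fderiv ℝ ρ q ≠ 0 ∧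
      ∀ᶠ z in 𝓝 q, (z ∈ D ↔ ρ z < 0)) ∧
    (∃ (X : Type) (_ : TopologicalSpace X) (_ : T2Space X) (_ : ConnectedSpace X)
      (π : X → Fin n → ℂ) (ι : D → X), IsEnvelope D π ι) ∧
    ∀ (X : Type) [TopologicalSpace X] [T2Space X] [ConnectedSpace X] (π : X → Fin n → ℂ)
      (ι : D → X), IsEnvelope D π ι → ∫⁻ z, ((π ⁻¹' {z}).encard : ENNReal) = ⊤ := by
  obtain ⟨m0, h0⟩ := Iv.core_DD
  obtain ⟨n, j0, D, h⟩ := h0.reindex
  obtain ⟨X, i1, i2, i3, π, ι, H, -⟩ := Iv.env_exists h.1 h.2.1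
  exact ⟨n, D, h.1, h.2.1, h.2.2.1, h.2.2.2.1, ⟨X, i1, i2, i3, π, ι, H⟩,
    fun Y _ _ _ π' ι' H' => Iv.vol_top h Y π' ι' H'⟩

end Pool.Agent.Results.MP_bea40e_an.InfiniteVolume
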