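import Pool.Agent.MP_bea40e_an.Mg.Main

open Filter Topology Set Pool.Agent.MP_bea40e_an

namespace Pool.Agent.Results.MP_bea40e_an.TorusSheets

universe u

/-- A bounded domain in `ℂⁿ` with `C¹` boundary that is invariant under an `(n-1)`-dimensional
torus of coordinate rotations has an envelope of holomorphy with boundedly many sheets. -/
theorem result {n : ℕ} (D : Set (Fin n → ℂ)) (hO : IsOpen D) (hc : IsConnected D)
    (hb : Bornology.IsBounded D)
    (hρ : ∀ q ∈ frontier D, ∃ ρ : (Fin n → ℂ) → ℝ, ContDiffAt ℝ 1 ρ q ∧ fderiv ℝ ρ q ≠ 0 ∧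
      ∀ᶠ z in 𝓝 q, (z ∈ D ↔ ρ z < 0))
    (m : Fin n → ℤ) (hm : m ≠ 0)
    (hinv : ∀ θ : Fin n → ℝ, ∑ j, (m j : ℝ) * θ j = 0 → ∀ z ∈ D,
      (fun j => Complex.exp (θ j * Complex.I) * z j) ∈ D)
    (X : Type u) [TopologicalSpace X] [T2Space X] [ConnectedSpace X] (π : X → Fin n → ℂ)
    (ι : D → X) (H : IsEnvelope D π ι) :
    ∃ M : ℕ, ∀ z, (π ⁻¹' {z}).encard ≤ M :=
  H.1.exists_encard_le hO (fun _ _ => H.separates hO hc.nonempty) hc.nonempty hb hρ hm hinv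

end Pool.Agent.Results.MP_bea40e_an.TorusSheets
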