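import Pool.Agent.MP_bea40e_an.Mg.Transfer

open Filter Topology Set Metric MeasureTheory Pool.Agent.MP_bea40e_an

namespace Pool.Agent.Results.MP_bea40e_an.TorusVolume

universe u

/-- Let `D'` be a bounded domain in `ℂⁿ` with `C¹` boundary that is invariant under an
`(n-1)`-dimensional torus of coordinate rotations, and let `D` be the image of `D'` under a
biholomorphic map with bounded Jacobian determinant. Then the envelope of holomorphy of `D` has
finite volume. -/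
theorem result {n : ℕ} (D' : Set (Fin n → ℂ)) (hO' : IsOpen D') (hc : IsConnected D')
    (hb : Bornology.IsBounded D')
    (hρ : ∀ q ∈ frontier D', ∃ ρ : (Fin n → ℂ) → ℝ, ContDiffAt ℝ 1 ρ q ∧ fderiv ℝ ρ q ≠ 0 ∧
      ∀ᶠ z in 𝓝 q, (z ∈ D' ↔ ρ z < 0))
    (m : Fin n → ℤ) (hm : m ≠ 0)
    (hinv : ∀ θ : Fin n → ℝ, ∑ j, (m j : ℝ) * θ j = 0 → ∀ z ∈ D',
      (fun j => Complex.exp (θ j * Complex.I) * z j) ∈ D')
    (D : Set (Fin n → ℂ)) (hO : IsOpen D) (Ψ Φ : (Fin n → ℂ) → Fin n → ℂ)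
    (hΨ : DifferentiableOn ℂ Ψ D') (hΦ : DifferentiableOn ℂ Φ D) (mΨ : MapsTo Ψ D' D)
    (mΦ : MapsTo Φ D D') (hΨΦ : ∀ z ∈ D, Ψ (Φ z) = z) (hΦΨ : ∀ w ∈ D', Φ (Ψ w) = w)
    (C : ℝ) (hJ : ∀ w ∈ D', ‖(fderiv ℂ Ψ w).det‖ ≤ C)
    (X : Type u) [TopologicalSpace X] [T2Space X] [ConnectedSpace X] (π : X → Fin n → ℂ)
    (ι : D → X) (H : IsEnvelope D π ι) :
    ∫⁻ z, ((π ⁻¹' {z}).encard : ENNReal) < ⊤ := by
  obtain ⟨h', e⟩ := H.1.transfer hO hO' hΦ hΨ mΦ mΨ ⟨hΨΦ, hΦΨ⟩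
  obtain ⟨M, h1⟩ := h'.exists_encard_le hO' (fun x y hxy =>
    H.separates hO (hc.nonempty.image Ψ |>.mono mΨ.image_subset) fun f hf => by
      rw [← e f hf]
      exact hxy _ (hf.comp hΨ mΨ)) hc.nonempty hb hρ hm hinv
  have h2 : h'.extMap Ψ = π := funext fun x => funext fun j =>
    (congrFun (e _ (differentiable_apply j).differentiableOn) x).trans
      (H.1.ext_entire (differentiable_apply j) x)
  refine (lintegral_encard_le H.1.1 h'.1 (C := C) (fun w => (finite_of_encard_le_coe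
    (h1 w)).countable) fun c r σ hσ w hw => ?_).trans_lt (ENNReal.mul_lt_top (by simp) ?_)
  · rw [← h2, ← (h'.ext_det hO' hΨ).2 hσ hw]
    refine ⟨(h'.analyticAt_extMap hΨ hσ hw).differentiableAt, not_lt.1 fun hlt =>
      h'.ext_ne_zero (h'.ext_det hO' hΨ).1 (fun z hz e => ?_) (σ w) rfl⟩
    exact (hJ z hz).not_gt (e ▸ hlt)
  obtain ⟨R, hR0, hR⟩ := hb.exists_pos_norm_le
  refine (lintegral_mono (g := (closedBall 0 R).indicator fun _ => (M : ENNReal))
    fun z => ?_).trans_lt ?_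
  · by_cases hz : z ∈ closedBall 0 R
    · rw [indicator_of_mem hz]
      exact (ENat.toENNReal_le.2 (h1 z)).trans (by simp)
    · have : H.1.extMap Φ ⁻¹' {z} = ∅ := eq_empty_of_forall_notMem fun x hx =>
        hz (mem_closedBall_zero_iff.2 (hx ▸ h'.norm_le hO' hR0.le hR x))
      simp [this]
  · rw [lintegral_indicator_const measurableSet_closedBall]
    exact ENNReal.mul_lt_top (ENNReal.natCast_lt_top M) (isCompact_closedBall _ _).measure_lt_top

end Pool.Agent.Results.MP_bea40e_an.TorusVolume
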